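import Pool.Agent.helper10.OM.SpecG

/-!
# Project OM, row GCS: the Cauchy-Schwarz inequality for the ratio classes (variant of CSQ)
-/

set_option autoImplicit false

namespace Pool.Agent.OM

open Finset Real Pool.Agent.AT Pool.Agent.helper85.FC

theorem GCS_tri {M : Type} [AddCommMonoid M] (I : Finset (ℕ × ℕ)) (X : Finset ℤ) (F : ℕ × ℕ → ℤ → ℤ → M) :
    ∑ r ∈ I, ∑ x ∈ X, ∑ y ∈ X, F r x y = ∑ t ∈ I ×ˢ (X ×ˢ X), F t.1 t.2.1 t.2.2 := by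
  rw [Finset.sum_product]
  refine Finset.sum_congr rfl fun m _ => ?_
  rw [Finset.sum_product]

theorem GCS (h1 : SHF_stmt) : GCS_stmt := by
  intro W H D R₀ R Y hW hD hR K g hK hg
  have hD0 : (0 : ℝ) < D := by exact_mod_cast hD
  have hsh : ∀ r ∈ W, ∀ d ∈ range D,
      ∑ x ∈ XX R Y, ∑ y ∈ XX R Y, K r ((r.2 : ℤ) * x - (r.1 : ℤ) * y) * g r x y =
      ∑ x ∈ XX R Y, ∑ y ∈ XX R Y, K r ((r.2 : ℤ) * x - (r.1 : ℤ) * y) *
        g r (x + (r.1 : ℤ) * d) (y + (r.2 : ℤ) * d) := by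
    intro r hr d hd
    obtain ⟨hr1, hr2⟩ := hW r hr
    have hd' : d ≤ D := (Finset.mem_range.1 hd).le
    have hA : (R₀ : ℤ) + |(r.1 : ℤ) * d| ≤ R := by
      rw [abs_of_nonneg (by positivity)]
      have h3 : R₀ + r.1 * d ≤ R := le_trans (Nat.add_le_add_left (Nat.mul_le_mul hr1 hd') _) hR
      exact_mod_cast h3
    have hB : (R₀ : ℤ) + |(r.2 : ℤ) * d| ≤ R := by
      rw [abs_of_nonneg (by positivity)]
      have h3 : R₀ + r.2 * d ≤ R := le_trans (Nat.add_le_add_left (Nat.mul_le_mul hr2 hd') _) hR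
      exact_mod_cast h3
    have e1 := h1 R₀ R Y ((r.1 : ℤ) * d) hA
      (fun x => ∑ y ∈ XX R Y, K r ((r.2 : ℤ) * x - (r.1 : ℤ) * y) * g r x y)
      (fun x hx => Finset.sum_eq_zero fun y _ => by rw [hg r x y (Or.inl hx), mul_zero])
    rw [← e1]
    refine Finset.sum_congr rfl fun x _ => ?_
    have e2 := h1 R₀ R Y ((r.2 : ℤ) * d) hB
      (fun y => K r ((r.2 : ℤ) * (x + (r.1 : ℤ) * d) - (r.1 : ℤ) * y) * g r (x + (r.1 : ℤ) * d) y)
      (fun y hy => by rw [hg r _ y (Or.inr hy), mul_zero])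
    rw [← e2]
    refine Finset.sum_congr rfl fun y _ => ?_
    have e3 : (r.2 : ℤ) * (x + (r.1 : ℤ) * d) - (r.1 : ℤ) * (y + (r.2 : ℤ) * d) =
        (r.2 : ℤ) * x - (r.1 : ℤ) * y := by ring
    rw [e3]
  have hS : ∑ r ∈ W, ∑ x ∈ XX R Y, ∑ y ∈ XX R Y, K r ((r.2 : ℤ) * x - (r.1 : ℤ) * y) * g r x y =
      ∑ r ∈ W, ∑ x ∈ XX R Y, ∑ y ∈ XX R Y, K r ((r.2 : ℤ) * x - (r.1 : ℤ) * y) *
        ((∑ d ∈ range D, g r (x + (r.1 : ℤ) * d) (y + (r.2 : ℤ) * d)) / D) := by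
    refine Finset.sum_congr rfl fun r hr => ?_
    refine mul_left_cancel₀ hD0.ne' ?_
    have e1 : (D : ℝ) * ∑ x ∈ XX R Y, ∑ y ∈ XX R Y, K r ((r.2 : ℤ) * x - (r.1 : ℤ) * y) * g r x y =
        ∑ d ∈ range D, ∑ x ∈ XX R Y, ∑ y ∈ XX R Y, K r ((r.2 : ℤ) * x - (r.1 : ℤ) * y) *
          g r (x + (r.1 : ℤ) * d) (y + (r.2 : ℤ) * d) := by
      rw [← Finset.sum_congr rfl (hsh r hr), Finset.sum_const, Finset.card_range, nsmul_eq_mul]
    rw [e1, Finset.sum_comm, Finset.mul_sum]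
    refine Finset.sum_congr rfl fun x _ => ?_
    rw [Finset.sum_comm, Finset.mul_sum]
    refine Finset.sum_congr rfl fun y _ => ?_
    rw [← Finset.mul_sum]
    field_simp
  rw [hS, GCS_tri, GCS_tri]
  refine le_trans (Finset.sum_mul_sq_le_sq_mul_sq _ _ _) ?_
  refine mul_le_mul_of_nonneg_right ?_ (Finset.sum_nonneg fun _ _ => sq_nonneg _)
  have hcard : (XX R Y).card = Y + 2 * R := by
    unfold XX
    rw [Int.card_Ico]
    omega
  calc ∑ t ∈ W ×ˢ (XX R Y ×ˢ XX R Y), K t.1 ((t.1.2 : ℤ) * t.2.1 - (t.1.1 : ℤ) * t.2.2) ^ 2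
      ≤ ∑ t ∈ W ×ˢ (XX R Y ×ˢ XX R Y), (1 : ℝ) := by
        refine Finset.sum_le_sum fun t _ => ?_
        rw [sq_le_one_iff_abs_le_one]
        exact hK _ _
    _ = ((W ×ˢ (XX R Y ×ˢ XX R Y)).card : ℝ) := by rw [Finset.sum_const, nsmul_eq_mul, mul_one]
    _ = #W * ((Y : ℝ) + 2 * R) ^ 2 := by
        rw [Finset.card_product, Finset.card_product, hcard]
        push_cast
        ring
    _ ≤ #W * ((Y : ℝ) + 2 * R) ^ 2 := le_refl _

end Pool.Agent.OM
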